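import Pool.Agent.helper17.MK.Spec

/-!
# Row mk:CR
-/

set_option autoImplicit false

namespace Pool.Agent.MK

open Finset Real Pool.Agent.helper39.MT Pool.Agent.helper85.FC

/-- The indices of the cluster `j`. -/
def CR_ix {kc : ℕ} (j : Fin 4) (x : Fin kc) : Fin (4 * kc) := finProdFinEquiv (j, x)

theorem CR_cl_ix {kc : ℕ} (j : Fin 4) (x : Fin kc) : cl4 (CR_ix j x) = j := by
  simp [cl4, CR_ix]

theorem CR_ix_inj {kc : ℕ} {j : Fin 4} {x x' : Fin kc} (h : CR_ix j x = CR_ix j x') : x = x' := by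
  have := finProdFinEquiv.injective h
  exact (Prod.mk.inj this).2

theorem CR_arith {G P a X Y s : ℝ} (hG : 0 < G) (ha : 0 < a) (hP0 : 0 < P)
    (hP : 10 ^ 5 * a * G ≤ P) (hX : (1 - 1 / 10 ^ 5) * P ≤ X)
    (hY : Y ≤ (1 + 1 / 10 ^ 5) * a * X + (4 - 1 / 4000) * P ^ 2 / G) (hCS : X ^ 2 ≤ s * Y)
    (hs : 0 ≤ s) : (1 + 2 / 10 ^ 5) / 4 * G ≤ s := by
  by_contra hcon
  push Not at hcon
  have hX0 : 0 < X := by
    refine lt_of_lt_of_le ?_ hX
    have h0 : (0 : ℝ) < 1 - 1 / 10 ^ 5 := by norm_num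
    positivity
  have hY0 : 0 < Y := by
    by_contra h
    have : s * Y ≤ 0 := mul_nonpos_of_nonneg_of_nonpos hs (not_lt.1 h)
    nlinarith
  have h1 : s * Y ≤ (1 + 2 / 10 ^ 5) / 4 * G * Y := mul_le_mul_of_nonneg_right hcon.le hY0.le
  have h2 : (1 + 2 / 10 ^ 5) / 4 * G * Y ≤
      (1 + 2 / 10 ^ 5) / 4 * G * ((1 + 1 / 10 ^ 5) * a * X + (4 - 1 / 4000) * P ^ 2 / G) :=
    mul_le_mul_of_nonneg_left hY (by positivity)
  have h3 : (1 + 2 / 10 ^ 5) / 4 * G * ((1 + 1 / 10 ^ 5) * a * X + (4 - 1 / 4000) * P ^ 2 / G)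
      = (1 + 2 / 10 ^ 5) / 4 * (1 + 1 / 10 ^ 5) * (a * G) * X +
        (1 + 2 / 10 ^ 5) / 4 * (4 - 1 / 4000) * P ^ 2 := by
    field_simp
  have h4 : (a * G) * X ≤ P / 10 ^ 5 * X := mul_le_mul_of_nonneg_right (by linarith) hX0.le
  have h5 : X ^ 2 ≤ (1 + 2 / 10 ^ 5) / 4 * (1 + 1 / 10 ^ 5) * (P / 10 ^ 5 * X) +
      (1 + 2 / 10 ^ 5) / 4 * (4 - 1 / 4000) * P ^ 2 := by
    linarith
  have h6 : 0 ≤ (X - (1 - 1 / 10 ^ 5) * P) * P := mul_nonneg (by linarith) hP0.le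
  have h6' : 0 ≤ (X - (1 - 1 / 10 ^ 5) * P) * X := mul_nonneg (by linarith) hX0.le
  have h7 : 0 < P ^ 2 := by positivity
  have e1 : X ^ 2 = X * X := sq X
  have e2 : P ^ 2 = P * P := sq P
  rw [e1, e2] at h5
  rw [e2] at h7
  have h5' : X * X ≤ (1 + 2 / 10 ^ 5) / 4 * (1 + 1 / 10 ^ 5) / 10 ^ 5 * (X * P) +
      (1 + 2 / 10 ^ 5) / 4 * (4 - 1 / 4000) * (P * P) := by
    linarith
  have h6a : (1 - 1 / 10 ^ 5) * (P * P) ≤ X * P := by linarith
  have h6b : (1 - 1 / 10 ^ 5) * (X * P) ≤ X * X := by linarith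
  norm_num at h5' h6a h6b
  linarith

theorem CR_core {kc : ℕ} (I : Finset ℕ) (v : ℕ → ℝ) (lm : Fin (4 * kc) → ℕ → ℝ) {a G t : ℝ}
    (hkc : 1 ≤ kc) (ha : 0 < a) (hG : 0 < G) (ht : 0 < t) (hv : ∀ n ∈ I, 0 ≤ v n)
    (hlm : ∀ i n, 0 ≤ lm i n)
    (h1 : ∑ n ∈ I, v n ≤ (1 + 1 / 10 ^ 5) * G)
    (h2 : ∀ i, (1 - 1 / 10 ^ 5) * t ≤ ∑ n ∈ I, v n * lm i n)
    (h3 : ∀ i, ∀ n ∈ I, v n ≠ 0 → lm i n ≤ (1 + 1 / 10 ^ 5) * a)
    (h4 : ∀ i i', i ≠ i' → ∑ n ∈ I, v n * (lm i n * lm i' n) ≤ (4 - 1 / 4000) * t ^ 2 / G)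
    (h5 : 10 ^ 5 * a * G ≤ kc * t)
    (h6 : ∀ n ∈ I, v n ≠ 0 → ∀ i i', cl4 i ≠ cl4 i' → lm i n = 0 ∨ lm i' n = 0) : False := by
  classical
  have hkc0 : (1 : ℝ) ≤ kc := by exact_mod_cast hkc
  set U : Fin 4 → ℕ → ℝ := fun j n => ∑ x : Fin kc, lm (CR_ix j x) n with hU
  have hU0 : ∀ j n, 0 ≤ U j n := fun j n => sum_nonneg fun x _ => hlm _ _
  set X : Fin 4 → ℝ := fun j => ∑ n ∈ I, v n * U j n with hX
  set Y : Fin 4 → ℝ := fun j => ∑ n ∈ I, v n * U j n ^ 2 with hY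
  set s : Fin 4 → ℝ := fun j => ∑ n ∈ I, if U j n = 0 then 0 else v n with hs
  have hXe : ∀ j, X j = ∑ x : Fin kc, ∑ n ∈ I, v n * lm (CR_ix j x) n := by
    intro j
    simp only [hX, hU, mul_sum]
    rw [sum_comm]
  have hXlow : ∀ j, (1 - 1 / 10 ^ 5) * (kc * t) ≤ X j := by
    intro j
    rw [hXe]
    have h7 := card_nsmul_le_sum (univ : Finset (Fin kc))
      (fun x => ∑ n ∈ I, v n * lm (CR_ix j x) n) ((1 - 1 / 10 ^ 5) * t) (fun x _ => h2 _)
    rw [card_univ, Fintype.card_fin, nsmul_eq_mul] at h7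
    linarith
  have hYup : ∀ j, Y j ≤ (1 + 1 / 10 ^ 5) * a * X j + (4 - 1 / 4000) * (kc * t) ^ 2 / G := by
    intro j
    have e : Y j = ∑ x : Fin kc, ∑ x' : Fin kc,
        ∑ n ∈ I, v n * (lm (CR_ix j x) n * lm (CR_ix j x') n) := by
      have e1 : ∀ n, v n * U j n ^ 2
          = ∑ x : Fin kc, ∑ x' : Fin kc, v n * (lm (CR_ix j x) n * lm (CR_ix j x') n) := by
        intro n
        simp only [hU]
        rw [sq, sum_mul_sum, mul_sum]
        refine sum_congr rfl fun x _ => ?_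
        rw [mul_sum]
      simp only [hY, e1]
      rw [sum_comm]
      refine sum_congr rfl fun x _ => ?_
      rw [sum_comm]
    rw [e]
    have hb : ∀ x x' : Fin kc, ∑ n ∈ I, v n * (lm (CR_ix j x) n * lm (CR_ix j x') n)
        ≤ (if x = x' then (1 + 1 / 10 ^ 5) * a * ∑ n ∈ I, v n * lm (CR_ix j x) n else 0)
          + (4 - 1 / 4000) * t ^ 2 / G := by
      intro x x'
      have h0 : 0 ≤ (4 - 1 / 4000) * t ^ 2 / G := by
        have h00 : (0 : ℝ) ≤ 4 - 1 / 4000 := by norm_num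
        positivity
      by_cases hx : x = x'
      · rw [if_pos hx, ← hx]
        refine le_trans ?_ (le_add_of_nonneg_right h0)
        rw [mul_sum]
        refine sum_le_sum fun n hn => ?_
        rcases eq_or_ne (v n) 0 with hvn | hvn
        · rw [hvn]; simp
        · have h7 := h3 (CR_ix j x) n hn hvn
          have h8 := hlm (CR_ix j x) n
          have h9 := hv n hn
          have h10 : 0 ≤ v n * lm (CR_ix j x) n := mul_nonneg h9 h8
          nlinarith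
      · rw [if_neg hx, zero_add]
        exact h4 _ _ fun h => hx (CR_ix_inj h)
    calc ∑ x : Fin kc, ∑ x' : Fin kc, ∑ n ∈ I, v n * (lm (CR_ix j x) n * lm (CR_ix j x') n)
        ≤ ∑ x : Fin kc, ∑ x' : Fin kc,
          ((if x = x' then (1 + 1 / 10 ^ 5) * a * ∑ n ∈ I, v n * lm (CR_ix j x) n else 0)
            + (4 - 1 / 4000) * t ^ 2 / G) :=
          sum_le_sum fun x _ => sum_le_sum fun x' _ => hb x x'
      _ = (1 + 1 / 10 ^ 5) * a * X j + kc * (kc * ((4 - 1 / 4000) * t ^ 2 / G)) := by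
          simp only [sum_add_distrib, sum_ite_eq, mem_univ, if_true, sum_const, card_univ,
            Fintype.card_fin, nsmul_eq_mul]
          rw [← mul_sum, ← hXe]
      _ = _ := by ring
  have hs0 : ∀ j, 0 ≤ s j := fun j => sum_nonneg fun n hn => by
    split_ifs
    · exact le_rfl
    · exact hv n hn
  have hCS : ∀ j, X j ^ 2 ≤ s j * Y j := by
    intro j
    refine sum_sq_le_sum_mul_sum_of_sq_le_mul I (fun n hn => ?_) (fun n hn => ?_)
      (fun n hn => le_of_eq ?_)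
    · split_ifs
      · exact le_rfl
      · exact hv n hn
    · exact mul_nonneg (hv n hn) (sq_nonneg _)
    · split_ifs with h
      · rw [h]; ring
      · ring
  have hsum : ∑ j, s j ≤ (1 + 1 / 10 ^ 5) * G := by
    refine le_trans ?_ h1
    rw [sum_comm]
    refine sum_le_sum fun n hn => ?_
    rcases eq_or_ne (v n) 0 with hvn | hvn
    · rw [hvn]; simp
    by_cases hex : ∃ j, U j n ≠ 0
    · obtain ⟨j, hj⟩ := hex
      rw [sum_eq_single j]
      · rw [if_neg hj]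
      · intro j' _ hjj
        rw [if_pos]
        by_contra hj'
        obtain ⟨x, _, hx⟩ := exists_ne_zero_of_sum_ne_zero hj
        obtain ⟨x', _, hx'⟩ := exists_ne_zero_of_sum_ne_zero hj'
        rcases h6 n hn hvn (CR_ix j x) (CR_ix j' x') (by rw [CR_cl_ix, CR_cl_ix]; exact Ne.symm hjj)
          with h | h
        · exact hx h
        · exact hx' h
      · intro h; exact absurd (mem_univ j) h
    · push Not at hex
      rw [sum_eq_zero]
      · exact hv n hn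
      · intro j _
        rw [if_pos (hex j)]
  have hlow : ∀ j, (1 + 2 / 10 ^ 5) / 4 * G ≤ s j := fun j =>
    CR_arith hG ha (by positivity) h5 (hXlow j) (hYup j) (hCS j) (hs0 j)
  have h7 : ∑ j : Fin 4, (1 + 2 / 10 ^ 5) / 4 * G ≤ ∑ j, s j := sum_le_sum fun j _ => hlow j
  rw [sum_const, card_univ, Fintype.card_fin, nsmul_eq_mul] at h7
  push_cast at h7
  linarith

theorem CR : CR_stmt := by
  intro kc I v lm a G t hkc ha hG ht hv hlm h1 h2 h3 h4 h5 h6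
  exact CR_core I v lm hkc ha hG ht hv hlm h1 h2 h3 h4 h5 h6

end Pool.Agent.MK
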